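import Pool.Agent.P.MP_b2082d_co.Defs

namespace Pool.Agent.P.MP_b2082d_co

/-- Seven different vertices `x 0, …, x 6` carry the complement of the Fano plane with the lines
`{j, j + 1, j + 3}` (indices modulo seven): the complement of every line is an edge. -/
def HasFanoComplement {V ι : Type} [DecidableEq V] (E : ι → Finset V) : Prop :=
  ∃ x : Fin 7 → V, Function.Injective x ∧
    ∀ j : Fin 7, ∃ i, E i = (Finset.univ \ {j, j + 1, j + 3}).image x

end Pool.Agent.P.MP_b2082d_co
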