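import Pool.Agent.P.MP_b2082d_co.L.Final

/-! Linear regular hypergraphs at a level below three sevenths. -/

namespace Pool.Agent.P.MP_b2082d_co.Lin.Gap
open Finset Rowx Stagex

set_option synthInstance.maxSize 4096 in
theorem chk :
    Al 4 fun n15 => Im (1 ≤ n15) <| Al (4 - n15) fun n14 => Al (4 - n15 - n14) fun n13 => Al (4 -
    n15 - n14 - n13) fun n11 => Al (4 - n15 - n14 - n13 - n11) fun n12 => Al (4 - n15 - n14 - n13
    - n11 - n12) fun n10 => Al (4 - n15 - n14 - n13 - n11 - n12 - n10) fun n9 => Al (4 - n15 -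
    n14 - n13 - n12) fun n7 => Al (4 - n15 - n14 - n13 - n12 - n7) fun n6 => Al (4 - n15 - n14 -
    n13 - n12 - n7 - n6) fun n5 => Al (4 - n15 - n14 - n11 - n10 - n7 - n6) fun n3 => Al 3 fun n1
    => Im (n1 + n3 + n5 + n7 + n9 + n11 + n13 + n15 = 4) <| Al 3 fun n2 => Im (n2 + n3 + n6 + n7
    + n10 + n11 + n14 + n15 = 4) <| Al 3 fun n4 => Im (n4 + n5 + n6 + n7 + n12 + n13 + n14 + n15
    = 4) <| Al 3 fun n8 => Im (n8 + n9 + n10 + n11 + n12 + n13 + n14 + n15 = 4) <| Al 12 fun n0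
    => Im (n0 + n1 + n2 + n3 + n4 + n5 + n6 + n7 + n8 + n9 + n10 + n11 + n12 + n13 + n14 + n15 =
    13) <| 25000 * (Q (n0 + n2 + n4 + n6 + n8 + n10 + n12 + n14) + Q (n0 + n1 + n4 + n5 + n8 + n9
    + n12 + n13) + Q (n0 + n1 + n2 + n3 + n8 + n9 + n10 + n11) + Q (n0 + n1 + n2 + n3 + n4 + n5 +
    n6 + n7)) + 22816 * (Q (n0 + n8) + Q (n0 + n4) + Q (n0 + n2) + Q (n0 + n1)) ≤ 4284428 + 19818
    * (Q (n0 + n4 + n8 + n12) + Q (n0 + n2 + n8 + n10) + Q (n0 + n1 + n8 + n9) + Q (n0 + n2 + n4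
    + n6) + Q (n0 + n1 + n4 + n5) + Q (n0 + n1 + n2 + n3)) + 26634 * Q n0 := by
  decide +kernel

theorem fin (n : Fin 16 → ℕ) (h0 : ∑ A, (n A : ℤ) * 1 = 13) (h1 : 1 ≤ n 15)
    (h : ∀ i : Fin 4, ∑ A, (n A : ℤ) * (if A.1.testBit i then 1 else 0) = 4) :
    ∑ T, cf T * ((∑ A, n A * e A T) * ∑ A, n A * e A T) - ∑ T, cf T * ∑ A, n A * e A T ≤
      4284428 := by
  have a0 := h 0
  have a1 := h 1
  have a2 := h 2
  have a3 := h 3
  simp +decide [Fin.sum_univ_succ, e, cf] at h0 a0 a1 a2 a3 ⊢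
  have := chk (n 15) (by omega) h1 (n 14) (by omega) (n 13) (by omega) (n 11) (by omega)
    (n 12) (by omega) (n 10) (by omega) (n 9) (by omega) (n 7) (by omega) (n 6) (by omega)
    (n 5) (by omega) (n 3) (by omega) (n 1) (by omega) (by omega) (n 2) (by omega) (by omega)
    (n 4) (by omega) (by omega) (n 8) (by omega) (by omega) (n 0) (by omega) (by omega)
  simp only [Q] at this
  push_cast at this
  linarith

theorem p_Row (c : Fin 13) (C : Fin 4 → Finset (Fin 13)) (hC : ∀ i, (C i).card = 4 ∧ c ∈ C i) :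
    ∑ a : Fin 13, ∑ b : Fin 13, (if a = b then 0 else if a = c ∨ b = c then 100000
      else phi (univ.filter fun i => a ∉ C i ∧ b ∉ C i).card) ≤ 6684428 := by
  choose fp hfp using fun a => mask fun i => decide (a ∈ C i)
  have h1 : ∀ a i, a ∈ C i ↔ (fp a).1.testBit i := fun a i => by rw [← hfp, decide_eq_true_iff]
  have key : ∀ F : Fin 16 → ℤ, ∑ A, (#{a | fp a = A} : ℕ) * F A = ∑ a, F (fp a) := fun F => by
    simp only [← sum_fiberwise' univ fp F, sum_const, nsmul_eq_mul]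
  have h2 := fin (fun A => #{a | fp a = A}) (by rw [key fun _ => 1]; simp) (card_pos.2 ⟨c, mem_filter.2
    ⟨mem_univ _, full _ fun i => (h1 c i).1 (hC i).2⟩⟩) fun i => by
      rw [key fun A => if A.1.testBit i then 1 else 0]
      simp [← h1, (hC i).1]
  have h3 : ∀ a b, (if a = b then 0 else if a = c ∨ b = c then 100000
      else phi (univ.filter fun i => a ∉ C i ∧ b ∉ C i).card) =
      (if a = b then 0 else if a = c ∨ b = c then 100000 else 0) +
        ∑ T, cf T * (e (fp a) T * e (fp b) T) - if a = b then ∑ T, cf T * e (fp a) T else 0 := by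
    intro a b
    split_ifs with h h'
    · simp [← h, e_sq]
    · rw [← mob]
      rcases h' with rfl | rfl <;> simp [← h1, (hC _).2, phi]
    · simp [← mob, h1]
  simp only [h3, sum_sub_distrib, sum_add_distrib, cst, sum_ite_eq, mem_univ, if_true]
  simp only [key, sum_mul_sum] at h2
  simp only [mul_sum] at h2
  rw [sum_comm, sum_comm (s := (univ : Finset (Fin 16))), sum_congr rfl fun _ _ => sum_comm] at h2
  linarith

variable {V ι : Type} [Fintype V] [DecidableEq V] [Fintype ι] [DecidableEq ι]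

omit [Fintype V] [DecidableEq ι] in
lemma row (E : ι → Finset V) (hu : ∀ i, (E i).card = 4) (χ : V → Fin 13)
    (hχ : ∀ i, ∀ u ∈ E i, ∀ v ∈ E i, χ u = χ v → u = v) (v : V)
    (hv : (univ.filter fun i => v ∈ E i).card = 4) :
    ∑ a, ∑ b, g E χ v a b ≤ 6684428 := by
  let e := (univ.filter fun i => v ∈ E i).equivFinOfCardEq hv
  have hmem : ∀ k, v ∈ E (e.symm k) := fun k => (mem_filter.mp (e.symm k).2).2
  have := p_Row (χ v) (fun k => (E (e.symm k)).image χ) (fun k => by
    refine ⟨?_, mem_image_of_mem _ (hmem k)⟩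
    rw [card_image_of_injOn (fun x hx y hy h => hχ _ x hx y hy h), hu])
  refine le_trans (le_of_eq ?_) this
  refine sum_congr rfl fun a _ => sum_congr rfl fun b _ => ?_
  unfold g
  congr 3
  unfold dg st res
  symm
  refine card_bij (fun k _ => (e.symm k : ι)) ?_ ?_ ?_
  · intro k hk
    simp only [mem_filter, mem_univ, true_and] at hk ⊢
    exact ⟨hk, hmem k⟩
  · intro k _ k' _ h
    exact e.symm.injective (Subtype.ext h)
  · intro i hi
    simp only [mem_filter, mem_univ, true_and] at hi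
    refine ⟨e ⟨i, by simp [hi.2]⟩, ?_, by simp⟩
    simp only [mem_filter, mem_univ, true_and, Equiv.symm_apply_apply]
    exact hi.1

/-- the weighted bound for linear regular hypergraphs. -/
theorem linear_w (E : ι → Finset V) (hu : ∀ i, (E i).card = 4)
    (hr : ∀ v, (univ.filter fun i => v ∈ E i).card = 4)
    (hl : ∀ i j, i ≠ j → (E i ∩ E j).card ≤ 1) (w : V → ℝ) (hw : ∀ v, 0 ≤ w v) :
    ∃ T, IsTransversal E T ∧ ∑ v ∈ T, w v ≤ 428553 / 1000000 * ∑ v, w v := by
  have hT := term V ι E ⟨hu, fun v => (hr v).le, hl⟩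
  obtain ⟨χ, hχ⟩ := p_Col V ι E hu (fun v => (hr v).le)
  have hex : ∃ p : Fin 13 × Fin 13, p.1 ≠ p.2 ∧
      ∑ v, w v * (g E χ v p.1 p.2 : ℝ) ≤ 428553 / 10 * ∑ v, w v := by
    by_contra hcon
    push Not at hcon
    have h1 : ∑ p ∈ (univ : Finset (Fin 13 × Fin 13)).filter (fun p => p.1 ≠ p.2),
        (428553 / 10 * ∑ v, w v) <
        ∑ p ∈ (univ : Finset (Fin 13 × Fin 13)).filter (fun p => p.1 ≠ p.2),
          ∑ v, w v * (g E χ v p.1 p.2 : ℝ) :=
      sum_lt_sum_of_nonempty ⟨(0, 1), by simp⟩ fun p hp => hcon p (mem_filter.mp hp).2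
    have hc : ((univ : Finset (Fin 13 × Fin 13)).filter (fun p => p.1 ≠ p.2)).card = 156 := by
      decide +kernel
    rw [sum_const, hc, sum_comm] at h1
    have h2 : ∀ v, ∑ p ∈ (univ : Finset (Fin 13 × Fin 13)).filter (fun p => p.1 ≠ p.2),
        w v * (g E χ v p.1 p.2 : ℝ) ≤ w v * 6684428 := by
      intro v
      rw [← mul_sum]
      refine mul_le_mul_of_nonneg_left ?_ (hw v)
      have h3 := row E hu χ hχ v (hr v)
      have h4 : ∑ p ∈ (univ : Finset (Fin 13 × Fin 13)).filter (fun p => p.1 ≠ p.2),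
          g E χ v p.1 p.2 = ∑ a, ∑ b, g E χ v a b := by
        rw [← sum_product', univ_product_univ]
        refine sum_filter_of_ne fun p _ hp h => hp ?_
        simp [g, h]
      have h5 : ((∑ a, ∑ b, g E χ v a b : ℤ) : ℝ) ≤ 6684428 := by exact_mod_cast h3
      rw [← h4] at h5
      push_cast at h5
      linarith
    have h6 := sum_le_sum fun v (_ : v ∈ (univ : Finset V)) => h2 v
    rw [← sum_mul] at h6
    simp only [nsmul_eq_mul] at h1
    push_cast at h1
    have h7 : 0 ≤ ∑ v, w v := sum_nonneg fun v _ => hw v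
    linarith
  obtain ⟨⟨a, b⟩, hab, hle⟩ := hex
  simp only at hab hle
  obtain ⟨T, hT1, hT2⟩ := hT (res E χ a b) w hw
  let K : Finset V := univ.filter fun v => a = χ v ∨ b = χ v
  refine ⟨K ∪ T, ?_, ?_⟩
  · intro i
    by_cases hi : i ∈ res E χ a b
    · obtain ⟨x, hx⟩ := hT1 i hi
      rw [mem_inter] at hx
      exact ⟨x, mem_inter.mpr ⟨mem_union_right _ hx.1, hx.2⟩⟩
    · simp only [res, mem_filter, mem_univ, true_and, not_and_or, not_not, mem_image] at hi
      rcases hi with ⟨x, hx, h⟩ | ⟨x, hx, h⟩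
      · exact ⟨x, mem_inter.mpr ⟨mem_union_left _ (by simp [K, h]), hx⟩⟩
      · exact ⟨x, mem_inter.mpr ⟨mem_union_left _ (by simp [K, h]), hx⟩⟩
  · have h1 : ∑ v ∈ K ∪ T, w v ≤ ∑ v ∈ K, w v + ∑ v ∈ T, w v := by
      rw [← sum_union_inter]
      have : 0 ≤ ∑ v ∈ K ∩ T, w v := sum_nonneg fun v _ => hw v
      linarith
    have h2 : ∑ v ∈ K, w v + ∑ v, w v * ((phi (dg E (res E χ a b) v) : ℝ) / 100000) =
        (∑ v, w v * (g E χ v a b : ℝ)) / 100000 := by
      rw [sum_filter, ← sum_add_distrib, sum_div]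
      refine sum_congr rfl fun v _ => ?_
      unfold g
      rw [if_neg hab]
      split_ifs with h
      · have h0 : dg E (res E χ a b) v = 0 := by
          unfold dg st res
          rw [card_eq_zero, filter_eq_empty_iff]
          intro i hi hv
          simp only [mem_filter, mem_univ, true_and] at hi
          rcases h with h | h
          · exact hi.1 (h ▸ mem_image_of_mem _ hv)
          · exact hi.2 (h ▸ mem_image_of_mem _ hv)
        rw [h0]; simp [phi]
      · ring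
    linarith

end Pool.Agent.P.MP_b2082d_co.Lin.Gap
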