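import Pool.Agent.P.MP_b2082d_co.Gap.Stage

/-! The rows of the first stage at the lower level, part 0. -/

namespace Pool.Agent.P.MP_b2082d_co.Gen.Gap
open Ad

theorem l0 : allL ((reps.drop 0).take 15) [z0, z1, z2, z3, z4, z5, z6, z7, z8, z9, z10, z11, z12,
    z13, z14] = true := by
  decide +kernel

theorem l15 : allL ((reps.drop 15).take 18) [z15, z16, z17, z18, z19, z20, z21, z22, z23, z24,
    z25, z26, z27, z28, z29, z30, z31, z32] = true := by
  decide +kernel

theorem l33 : allL ((reps.drop 33).take 1) [z33] = true := by
  decide +kernel

theorem l224 : allL ((reps.drop 224).take 21) [z224, z225, z226, z227, z228, z229, z230, z231,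
    z232, z233, z234, z235, z236, z237, z238, z239, z240, z241, z242, z243, z244] = true := by
  decide +kernel

theorem l245 : allL ((reps.drop 245).take 15) [z245, z246, [], z248, z249, z250, z251, z252, z253,
    z254, z255, z256, z257, z258, z259] = true := by
  decide +kernel

theorem l260 : allL ((reps.drop 260).take 18) [z260, z261, z262, z263, z264, z265, z266, z267,
    z268, z269, z270, z271, z272, z273, z274, z275, z276, z277] = true := by
  decide +kernel

theorem l278 : allL ((reps.drop 278).take 19) [z278, z279, z280, z281, z282, z283, z284, z285,
    z286, z287, z288, z289, z290, z291, z292, z293, z294, z295, z296] = true := by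
  decide +kernel

theorem l297 : allL ((reps.drop 297).take 23) [z297, z298, z299, z300, z301, z302, z303, z304,
    z305, z306, z307, z308, z309, z310, z311, z312, z313, z314, z315, z316, z317, z318, z319] =
    true := by
  decide +kernel

theorem l320 : allL ((reps.drop 320).take 15) [z320, z321, z322, z323, z324, z325, z326, [], z328,
    z329, z330, z331, z332, z333, z334] = true := by
  decide +kernel

end Pool.Agent.P.MP_b2082d_co.Gen.Gap
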