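import Pool.Agent.P.MP_b2082d_co.Gap.Stage

/-! The rows of the first stage at the lower level, part 1. -/

namespace Pool.Agent.P.MP_b2082d_co.Gen.Gap
open Ad

theorem l34 : allL ((reps.drop 34).take 2) [z34, z35] = true := by
  decide +kernel

theorem l36 : allL ((reps.drop 36).take 1) [z36] = true := by
  decide +kernel

theorem l37 : allL ((reps.drop 37).take 3) [z37, z38, z39] = true := by
  decide +kernel

theorem l40 : allL ((reps.drop 40).take 5) [z40, z41, z42, z43, z44] = true := by
  decide +kernel

theorem l45 : allL ((reps.drop 45).take 2) [z45, z46] = true := by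
  decide +kernel

theorem l47 : allL ((reps.drop 47).take 2) [z47, z48] = true := by
  decide +kernel

theorem l49 : allL ((reps.drop 49).take 1) [z49] = true := by
  decide +kernel

theorem l50 : allL ((reps.drop 50).take 1) [z50] = true := by
  decide +kernel

end Pool.Agent.P.MP_b2082d_co.Gen.Gap
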