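import Pool.Agent.P.MP_b2082d_co.Gap.Stage

/-! The rows of the first stage at the lower level, part 2. -/

namespace Pool.Agent.P.MP_b2082d_co.Gen.Gap
open Ad

theorem l51 : allL ((reps.drop 51).take 5) [z51, z52, z53, z54, z55] = true := by
  decide +kernel

theorem l56 : allL ((reps.drop 56).take 3) [z56, z57, z58] = true := by
  decide +kernel

theorem l59 : allL ((reps.drop 59).take 11) [z59, z60, z61, z62, z63, z64, z65, z66, z67, z68,
    z69] = true := by
  decide +kernel

theorem l70 : allL ((reps.drop 70).take 3) [z70, z71, z72] = true := by
  decide +kernel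

theorem l73 : allL ((reps.drop 73).take 8) [z73, z74, z75, z76, z77, z78, z79, z80] = true := by
  decide +kernel

theorem l81 : allL ((reps.drop 81).take 17) [z81, z82, z83, z84, z85, z86, z87, z88, z89, z90,
    z91, z92, z93, z94, z95, z96, z97] = true := by
  decide +kernel

theorem l98 : allL ((reps.drop 98).take 2) [z98, z99] = true := by
  decide +kernel

theorem l100 : allL ((reps.drop 100).take 4) [z100, z101, z102, z103] = true := by
  decide +kernel

theorem l104 : allL ((reps.drop 104).take 5) [z104, z105, z106, z107, z108] = true := by
  decide +kernel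

theorem l109 : allL ((reps.drop 109).take 5) [z109, z110, z111, z112, z113] = true := by
  decide +kernel

end Pool.Agent.P.MP_b2082d_co.Gen.Gap
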