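import Pool.Agent.P.MP_b2082d_co.Gap.Stage

/-! The rows of the first stage at the lower level, part 3. -/

namespace Pool.Agent.P.MP_b2082d_co.Gen.Gap
open Ad

theorem l114 : allL ((reps.drop 114).take 4) [z114, z115, z116, z117] = true := by
  decide +kernel

theorem l118 : allL ((reps.drop 118).take 11) [z118, z119, z120, z121, z122, z123, z124, z125,
    z126, z127, z128] = true := by
  decide +kernel

theorem l129 : allL ((reps.drop 129).take 7) [z129, z130, z131, z132, z133, z134, z135] = true :=
    by
  decide +kernel

theorem l136 : allL ((reps.drop 136).take 5) [z136, z137, z138, z139, z140] = true := by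
  decide +kernel

theorem l141 : allL ((reps.drop 141).take 5) [z141, z142, z143, z144, z145] = true := by
  decide +kernel

theorem l146 : allL ((reps.drop 146).take 7) [z146, z147, z148, z149, z150, z151, z152] = true :=
    by
  decide +kernel

theorem l153 : allL ((reps.drop 153).take 12) [z153, z154, z155, z156, z157, z158, z159, z160,
    z161, z162, z163, z164] = true := by
  decide +kernel

theorem l165 : allL ((reps.drop 165).take 11) [z165, z166, z167, z168, z169, z170, z171, z172,
    z173, z174, z175] = true := by
  decide +kernel

theorem l176 : allL ((reps.drop 176).take 11) [z176, z177, z178, z179, z180, z181, z182, z183,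
    z184, z185, z186] = true := by
  decide +kernel

theorem l187 : allL ((reps.drop 187).take 10) [z187, z188, z189, z190, z191, z192, z193, z194,
    z195, z196] = true := by
  decide +kernel

theorem l197 : allL ((reps.drop 197).take 17) [z197, z198, z199, z200, z201, z202, z203, z204,
    z205, z206, z207, z208, z209, z210, z211, z212, z213] = true := by
  decide +kernel

theorem l214 : allL ((reps.drop 214).take 10) [z214, z215, z216, z217, z218, z219, z220, z221,
    z222, z223] = true := by
  decide +kernel

end Pool.Agent.P.MP_b2082d_co.Gen.Gap
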