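import Pool.Agent.P.MP_b2082d_co.G.Final

/-! The first stage at a level below three sevenths. -/

namespace Pool.Agent.P.MP_b2082d_co.Gen.Gap
open Finset Ad

/-- the level. -/
noncomputable def lam : ℝ := 428553 / 1000000

/-- a vertex of degree one pays `27 / 100`, any other vertex pays `lam`. -/
noncomputable def tq (R : Hg) (v : ℕ) : ℝ := if (star R v).card = 1 then 27 / 100 else lam

/-- the check for one coded star. -/
noncomputable def chkL (r : ℕ × List ℕ × List ℕ) (zs : List ℕ) : Bool :=
  decide (r.1 ∈ [1, 3, 7, 15]) && decide (∀ p ∈ r.2.2, p ∈ [3, 5, 9, 6, 10, 12]) &&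
  decide (0 ∉ r.2.1) && frc (pack (Ad.gp tb 250000 r)) fun G =>
    (List.range 16).all (fun u => Nat.ble (Ad.gp tb 250000 r u) (tab G u)) &&
    chk 3 7 3 (Ad.dg r.1) G (if Ad.dg r.1 = 1 then 270000 else 428553)
      (Ad.grp (r.2.1.map (xm r.2.2))) zs

noncomputable def allL (l : List (ℕ × List ℕ × List ℕ)) : List (List ℕ) → Bool :=
  List.rec (motive := fun _ => List (List ℕ) → Bool) (fun _ => true)
    (fun r _ ih Z => List.casesOn (motive := fun _ => Bool) Z false fun zs Z =>
      (chkL r zs || badR r) && ih Z) l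

theorem allL_ok : ∀ {l : List (ℕ × List ℕ × List ℕ)} {Z : List (List ℕ)},
    allL l Z = true → ∀ r ∈ l, badR r = true ∨ ∃ zs, chkL r zs = true
  | [], _, _, _, h => absurd h List.not_mem_nil
  | _ :: _, [], h, _, _ => absurd h Bool.false_ne_true
  | q :: l, zs :: Z, h, r, hr => by
    have h' : ((chkL q zs || badR q) && allL l Z) = true := h
    rw [Bool.and_eq_true, Bool.or_eq_true] at h'
    rcases List.mem_cons.1 hr with rfl | a
    exacts [h'.1.symm.imp_right fun b => ⟨zs, b⟩, allL_ok h'.2 r a]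

theorem stepL {l : List (ℕ × List ℕ × List ℕ)} {a n b : ℕ} {Z : List (List ℕ)}
    (h : allL ((l.drop a).take n) Z = true) (e : a + n = b)
    (h2 : ∀ r ∈ l.drop b, badR r = true ∨ ∃ zs, chkL r zs = true) :
    ∀ r ∈ l.drop a, badR r = true ∨ ∃ zs, chkL r zs = true := fun r hr => by
  rw [← List.take_append_drop n (l.drop a), List.mem_append, List.drop_drop, e] at hr
  exact hr.elim (allL_ok h r) (h2 r)

/-- From the prices of the residual systems to the prices of the whole system. -/
theorem good_of_reps (lp : ℕ → ℝ) (hlp : ∀ j, lp j ≤ (250000 : ℕ) / 1000000)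
    (hT : ∀ R, Cls R → Good R (price (fun _ S => tb (sig R S) / 1000000) lp R)) {R : Hg}
    (hR : Cls R) {χ : ℕ → Fin 12} (hχ : ∀ e ∈ R, ∀ u ∈ e, ∀ w ∈ e, χ u = χ w → u = w)
    (hs : ∀ v ∈ vs R, ∃ E L F zs, Lab (star R v) E (v :: L) ∧ Flags R E F ∧
      chkL (msk E v, L.map (msk E), F) zs = true) : Good R (tq R) := by
  refine good_adapt (α := 3) (γ := 7) (k := 3) hχ (by norm_num) _
    (fun X => (hT _ (hR.sub (res_subset R X))).buy) (fun X v a => (if_pos a).le) _ fun v hv => ?_
  obtain ⟨E, L, F, zs, h, hF, c⟩ := hs v hv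
  simp only [chkL, frc_eq, Bool.and_eq_true, decide_eq_true_eq, List.all_eq_true, List.mem_range,
    Nat.ble_eq] at c
  obtain ⟨⟨⟨c1, c2⟩, c3⟩, c4, c5⟩ := c
  refine ⟨E, _, _, _, _, _, zs, site h hF c1 c2 c3, c5, ?_, fun X U a b => ?_⟩
  · have d : (star R v).card = Ad.dg (msk E v) := by rw [← star_star, h.deg, Ad.dg]
    rw [tq, d, lam]
    split_ifs <;> norm_num
  · rw [if_neg a, ← tab_mod]
    split_ifs with d
    · have u := Nat.mod_lt U (show 0 < 16 by norm_num)
      have k1 : ∀ u < 16, ∀ i : Fin 4, (15 - u).testBit i = true ↔ ¬ u.testBit i = true := by decide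
      obtain ⟨f, g⟩ := h.buy hF (X := X) (k := 15 - U % 16) fun i _ => by
        rw [k1 _ u, show 16 = 2 ^ 4 from rfl, Nat.testBit_mod_two_pow, decide_eq_true i.2,
          Bool.true_and, b, disjoint_left]
        simp
      have e : (star (res R X) v).card = Ad.dg (msk E v &&& (15 - U % 16)) := by
        rw [← star_star, f.deg, msk_cut, Ad.dg]
      have p := star_pos d
      refine le_trans ?_ (div_le_div_of_nonneg_right (Nat.cast_le.2 (c4 _ u)) (by norm_num))
      rw [price, Ad.gp, ← e, if_neg (Nat.one_le_iff_ne_zero.1 p)]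
      split_ifs
      · exact hlp _
      · rw [f.sig_eq g, map_cut, List.map_cons]
    · positivity

/-- the prices of the residual systems. -/
theorem term_of {n : Nums} (h : n.Ok) {T : ℕ → ℕ}
    (h05 : reps.all (chk05 T n.th n.sg n.pi n.g5) = true)
    (h1 : (reps.all fun r => Nat.beq r.1 1 || T1.row T n.cs r.1 r.2.1 r.2.2) = true)
    (h0 : ∀ R, Cls R → NoH6 R → Co2 R → Good R (pr (T1.Pt T) n.lp R)) :
    (∀ j, n.lp j ≤ (250000 : ℕ) / 1000000) ∧ ∀ R, Cls R → Good R (pr (T1.Pt T) n.lp R) := by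
  simp only [Nums.Ok, ← Nat.cast_le (α := ℝ)] at h
  push_cast at h
  obtain ⟨a1, a2, a3, a4, a5, a6, a7, a8, a9, b1, b2, b3, b4, b5, b6, b7, b8, b9, c1, c2, c3, c4,
    c5, c6, c7, c8⟩ := h
  have p0 : n.lp 0 = 1 / 4 := by norm_num [Nums.lp]
  have p1 : n.lp 1 = n.l1 / 1000000 := rfl
  have p2 : n.lp 2 = n.l2 / 1000000 := rfl
  have p3 : n.lp 3 = n.l3 / 1000000 := rfl
  have p4 : n.lp 4 = 1 / 4 := by norm_num [Nums.lp]
  have q : ∀ j, (n.th : ℝ) / 1000000 ≤ n.lp j ∧ n.lp j ≤ (250000 : ℕ) / 1000000 := fun j => by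
    unfold Nums.lp
    split_ifs <;> constructor <;> push_cast <;> linarith
  have t0 : (0 : ℝ) ≤ n.th := Nat.cast_nonneg _
  have P5 := par05_of_chk h05 (lp := n.lp) (Nat.cast_le.1 a1) (fun j => (q j).1) (fun j a => by
      interval_cases j <;> norm_num [p1, p2, p3, p4] <;> linarith) (fun j m a b => by
      have : m ≤ 3 := by omega
      have : j ≤ 2 := by omega
      interval_cases j <;> interval_cases m <;>
        first | omega | (norm_num [p1, p2, p3]; linarith))
    fun j m a b => by
      have : j ≤ 3 := by omega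
      obtain rfl : m = 4 - j := by omega
      interval_cases j <;> norm_num [p1, p2, p3] <;> linarith
  have P1 : Par1' (T1.Pt T) n.lp (n.g / 1000000) (n.b / 1000000) :=
    ⟨⟨fun _ _ => by unfold T1.Pt; positivity, fun j => le_trans (by positivity) (q j).1,
      by positivity, fun j m a => by
        have : m ≤ 4 := by omega
        have : j ≤ 4 := by omega
        interval_cases j <;> interval_cases m <;>
          first | omega | (norm_num [p1, p2, p3, p4] <;> linarith),
      by linarith, by linarith, by linarith, by linarith, by positivity, by linarith, by linarith⟩,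
      by linarith, by linarith, by linarith⟩
  have B : T1.Ctx.Bd n.cs n.lp (n.g / 1000000) (n.b / 1000000) :=
    ⟨le_rfl, le_rfl, by simp only [Nums.cs]; push_cast; linarith,
      by simp only [Nums.cs]; push_cast; linarith, by
        simp only [Nums.cs]
        rw [Nat.cast_sub (by exact_mod_cast (by linarith : (3 * n.l3 : ℝ) ≤ 1000000))]
        push_cast
        linarith⟩
  refine ⟨fun j => (q j).2, T1.main P1 B (fun R hR v h2 => ?_) (t05_tab P5 h0)⟩
  obtain ⟨E, L, F, d1, d2, d3⟩ := exists_rep hR (mem_vs_of_star (one_le_two.trans h2))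
  refine ⟨E, L, F, d1, d2, (Bool.or_eq_true_iff.1 (List.all_eq_true.1 h1 _ d3)).resolve_left
    fun e => ?_⟩
  rw [T1.card_pc d1 fun e a => (mem_star.1 a).2,
    show msk E v = 1 from Nat.eq_of_beq_eq_true e] at h2
  exact absurd h2 (by decide)

theorem core0 : CoreC 2 num :=
  t0core tb0_ok (s_bud (by decide))
    (s_leaf (by decide) (by decide) (by decide) (by decide)) (fun _ _ _ => iota_nonneg) s_vtx0
    (s_edge (s_loc num) (s_W (s_loc num)) s_kil (Tn.s_ten0 : S_ten num tb0)) (s_set chkQ0) s_os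

theorem term : (∀ j, nums.lp j ≤ (250000 : ℕ) / 1000000) ∧
    ∀ R, Cls R → Good R (pr (T1.Pt tb) nums.lp R) :=
  term_of nums_ok tab05 tab1 fun R a b c =>
    (t0_core2 num_ok core0 Sm.small4 prof7_num1 (fun _ a b c d => small6_num1 a b c d) R
      ⟨a, b, c⟩).mono fun _ => p0_le (by decide) tabB ⟨a, b, c⟩

/-- the weights of the seven covers of the grid cluster. -/
def gW : Fin 7 → ℕ := ![28, 28, 28, 18, 9, 9, 9]

theorem g_in : ∀ i : Fin 9,
    ∑ o ∈ univ.filter fun o => i ∈ gridU o, gW o = if i < 5 then 55 else 28 := by decide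

theorem g_out : ∀ i : Fin 9,
    ∑ o ∈ univ.filter fun o => i ∉ gridU o, gW o = if i < 5 then 74 else 101 := by decide

theorem tq_nonneg (A : Hg) (v : ℕ) : 0 ≤ tq A v := by
  unfold tq lam
  split_ifs <;> norm_num

theorem good_grid {R : Hg} (hR : Cls R) {x : Fin 9 → ℕ}
    (hx : Function.Injective x) (hE : ∀ E ∈ gridE, E.image x ∈ R)
    (ih : Good (R \ gridE.image (image x)) (tq (R \ gridE.image (image x)))) :
    Good R (tq R) := by
  set D : Hg := gridE.image (image x) with hD
  have hDR : D ⊆ R := fun e he => by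
    obtain ⟨E, a, rfl⟩ := mem_image.1 he
    exact hE E a
  have nn := tq_nonneg
  have hs : ∀ v, (star (R \ D) v).card + (star D v).card = (star R v).card := fun v => by
    rw [star, star, star, ← card_union_of_disjoint (disjoint_filter_filter sdiff_disjoint),
      ← filter_union, sdiff_union_of_subset hDR]
  have hd : ∀ i, (star D (x i)).card = if i < 5 then 4 else 3 := fun i => by
    rw [← grid_deg i, star, hD, filter_image, card_image_of_injective _ (image_injective hx)]
    exact congrArg card (filter_congr fun E _ => hx.mem_finset_image)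
  have ht : ∑ o : Fin 7, (gW o : ℝ) = 129 := by
    simp [Fin.sum_univ_succ, gW]
    norm_num
  refine good_avg univ (fun o => (gW o : ℝ)) (fun o v => if v ∈ (gridU o).image x then 1 else
    if v ∈ vs (R \ D) then tq (R \ D) v else 0) _ (fun o _ => Nat.cast_nonneg _) ?_
    (fun o _ _ => ?_) fun v hv => ?_
  · rw [ht]
    norm_num
  · have hr : res R ((gridU o).image x) ⊆ R \ D := fun e he => by
      obtain ⟨a, b⟩ := mem_res.1 he
      refine mem_sdiff.2 ⟨a, fun c => ?_⟩
      obtain ⟨E, c1, rfl⟩ := mem_image.1 c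
      exact not_disjoint_iff_nonempty_inter.2 (grid_cov o E c1) ((disjoint_image hx).1 b)
    refine (ih.sub hr).buy.mono fun v _ => ?_
    split_ifs with a b c
    exacts [le_rfl, le_rfl, absurd (vs_mono hr b) c, nn _ _, le_rfl]
  · by_cases a : ∃ i, x i = v
    · obtain ⟨i, rfl⟩ := a
      have b1 := hs (x i)
      have b2 := hd i
      have b3 : (star R (x i)).card ≤ 4 := hR.deg (x i)
      have b4 : tq R (x i) = lam := if_neg (by split_ifs at b2 <;> omega)
      have b5 : (if x i ∈ vs (R \ D) then tq (R \ D) (x i) else 0) ≤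
          if i < 5 then 0 else 27 / 100 := by
        by_cases c : x i ∈ vs (R \ D)
        · obtain ⟨e, c1, c2⟩ := mem_vs.1 c
          have c3 : 0 < (star (R \ D) (x i)).card := card_pos.2 ⟨e, mem_star.2 ⟨c1, c2⟩⟩
          rw [if_pos c]
          split_ifs at b2 ⊢
          · omega
          · exact le_of_eq (if_pos (by omega))
        · rw [if_neg c]
          split_ifs
          exacts [le_rfl, by norm_num]
      rw [ht, b4, lam]
      simp only [hx.mem_finset_image, mul_ite (_ ∈ gridU _), mul_one]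
      rw [sum_ite, ← sum_mul, ← Nat.cast_sum, ← Nat.cast_sum, g_in, g_out]
      generalize (if x i ∈ vs (R \ D) then tq (R \ D) (x i) else 0) = y at b5 ⊢
      split_ifs at b5 ⊢ <;> push_cast <;> linarith
    · have b1 : star (R \ D) v = star R v := by
        ext e
        simp only [mem_star, mem_sdiff]
        refine ⟨fun b => ⟨b.1.1, b.2⟩, fun b => ⟨⟨b.1, fun c => ?_⟩, b.2⟩⟩
        obtain ⟨E, -, rfl⟩ := mem_image.1 c
        obtain ⟨i, -, c2⟩ := mem_image.1 b.2
        exact a ⟨i, c2⟩
      rw [sum_mul]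
      refine sum_le_sum fun o _ => mul_le_mul_of_nonneg_left ?_ (Nat.cast_nonneg _)
      rw [if_neg fun c => a (let ⟨i, _, c2⟩ := mem_image.1 c; ⟨i, c2⟩)]
      split_ifs
      · exact le_of_eq (by rw [tq, tq, b1])
      · exact nn _ _

/-- the coloured systems without the complement of the Fano plane. -/
theorem main_of (hs : ∀ r ∈ reps, badR r = true ∨ ∃ zs, chkL r zs = true) (χ : ℕ → Fin 12)
    (R : Hg) : Cls R → ¬Fano R → (∀ e ∈ R, ∀ u ∈ e, ∀ v ∈ e, χ u = χ v → u = v) →
      Good R (tq R) := by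
  induction R using Finset.strongInduction with
  | H R ih =>
    intro hR hf hχ
    by_cases hg : Grid R
    · obtain ⟨x, hx, hE⟩ := hg
      refine good_grid hR hx hE (ih _ ?_ (hR.sub sdiff_subset)
        (fun ⟨y, c, d⟩ => hf ⟨y, c, fun E e => sdiff_subset (d E e)⟩)
        fun e he => hχ e (sdiff_subset he))
      refine sdiff_ssubset (fun e he => ?_) (image_nonempty.2 ⟨{0, 1, 2, 5}, by decide⟩)
      obtain ⟨E, b, rfl⟩ := mem_image.1 he
      exact hE E b
    · refine good_of_reps nums.lp term.1 term.2 hR hχ fun v hv => ?_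
      obtain ⟨E, L, F, h, hF, hr⟩ := exists_rep hR hv
      obtain ⟨zs, c⟩ := (hs _ hr).resolve_left fun a => by
        rw [badR, Bool.or_eq_true, decide_eq_true_eq, decide_eq_true_eq] at a
        exact a.elim (fun b => hg (grid_of_isGrid hR h hF b))
          fun b => hf (fano_of_code h hF b.1 b.2.1 b.2.2.1 b.2.2.2.1 b.2.2.2.2)
      exact ⟨E, L, F, zs, h, hF, c⟩

end Pool.Agent.P.MP_b2082d_co.Gen.Gap
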