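import Pool.Agent.P.MP_b2082d_co.Gap.S0
import Pool.Agent.P.MP_b2082d_co.Gap.S1
import Pool.Agent.P.MP_b2082d_co.Gap.S2
import Pool.Agent.P.MP_b2082d_co.Gap.S3
import Pool.Agent.P.MP_b2082d_co.Gap.Lin
import Pool.Agent.P.MP_b2082d_co.Gap.FDefs

/-! The extremal hypergraphs and the gap above seven thirds. -/

namespace Pool.Agent.P.MP_b2082d_co.Gen.Gap
open Finset

theorem stage_all : ∀ r ∈ reps, Ad.badR r = true ∨ ∃ zs, chkL r zs = true :=
  stepL l0 rfl <| stepL l15 rfl <| stepL l33 rfl <| stepL l34 rfl <|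
  stepL l36 rfl <| stepL l37 rfl <| stepL l40 rfl <| stepL l45 rfl <|
  stepL l47 rfl <| stepL l49 rfl <| stepL l50 rfl <| stepL l51 rfl <|
  stepL l56 rfl <| stepL l59 rfl <| stepL l70 rfl <| stepL l73 rfl <|
  stepL l81 rfl <| stepL l98 rfl <| stepL l100 rfl <| stepL l104 rfl <|
  stepL l109 rfl <| stepL l114 rfl <| stepL l118 rfl <| stepL l129 rfl <|
  stepL l136 rfl <| stepL l141 rfl <| stepL l146 rfl <| stepL l153 rfl <|
  stepL l165 rfl <| stepL l176 rfl <| stepL l187 rfl <| stepL l197 rfl <|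
  stepL l214 rfl <| stepL l224 rfl <| stepL l245 rfl <| stepL l260 rfl <|
  stepL l278 rfl <| stepL l297 rfl <| stepL l320 rfl <|
  Ad.all_end (n := 335) (by decide +kernel)

variable {V ι : Type} [Fintype V] [DecidableEq V] [Fintype ι]

omit [Fintype V] in
theorem nbr_full [DecidableEq ι] {E : ι → Finset V} (hu : ∀ i, (E i).card = 4)
    (hd : ∀ v, (univ.filter fun i => v ∈ E i).card ≤ 4) {L : Finset V} {x : V}
    (h : 12 ≤ (nbr E x ∩ L).card) : (univ.filter fun i => x ∈ E i).card = 4 ∧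
      (∀ i, x ∈ E i → (E i).erase x ⊆ L) ∧
      ∀ i j, i ≠ j → x ∈ E i → x ∈ E j → Disjoint ((E i).erase x) ((E j).erase x) := by
  have hr : (univ.filter fun i => x ∈ E i).card = 4 := by
    have a : (nbr E x).card ≤ _ := card_biUnion_le
    rw [sum_congr rfl (g := fun _ => 3) fun i hi => by
      rw [card_erase_of_mem (mem_filter.1 hi).2, hu], sum_const, smul_eq_mul] at a
    have b := card_le_card (inter_subset_left (s₁ := nbr E x) (s₂ := L))
    have c := hd x
    omega
  have h1 : ∑ i ∈ univ.filter fun i => x ∈ E i, ((E i).erase x).card = 12 := by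
    rw [sum_congr rfl (g := fun _ => 3) fun i hi => by
      rw [card_erase_of_mem (mem_filter.1 hi).2, hu], sum_const, hr]
    rfl
  have h2 : (nbr E x).card ≤ 12 := h1 ▸ card_biUnion_le
  have h3 : nbr E x ∩ L = nbr E x := eq_of_subset_of_card_le inter_subset_left (h2.trans h)
  refine ⟨hr, fun i hi v hv => inter_eq_left.1 h3 (mem_nbr.2 ⟨i, hi, mem_erase.1 hv⟩), ?_⟩
  intro i j hij hi hj
  refine disjoint_left.2 fun y a b => ?_
  have h4 : nbr E x ⊆ ((E i).erase x).erase y ∪
      ((univ.filter fun i => x ∈ E i).erase i).biUnion fun i => (E i).erase x := fun v hv => by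
    obtain ⟨k, k1, k2⟩ := mem_nbr.1 hv
    by_cases c : v = y
    · exact mem_union_right _ (mem_biUnion.2 ⟨j, by simp [hij.symm, hj], c ▸ b⟩)
    · by_cases d : k = i
      · exact mem_union_left _ (mem_erase.2 ⟨c, mem_erase.2 (d ▸ k2)⟩)
      · exact mem_union_right _ (mem_biUnion.2 ⟨k, by simp [d, k1], mem_erase.2 k2⟩)
  have h5 := (card_le_card h4).trans ((card_union_le _ _).trans (add_le_add le_rfl card_biUnion_le))
  rw [sum_congr rfl (g := fun _ => 3) fun i hi => by
    rw [card_erase_of_mem (mem_filter.1 (mem_of_mem_erase hi)).2, hu], sum_const,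
    card_erase_of_mem a, card_erase_of_mem hi, hu, card_erase_of_mem (by simpa using hi), hr] at h5
  rw [h3] at h
  simp at h5
  omega

omit [Fintype V] in
/-- the part of the hypergraph in which all vertices have twelve neighbours. -/
theorem linear_part {E : ι → Finset V} (hu : ∀ i, (E i).card = 4)
    (hd : ∀ v, (univ.filter fun i => v ∈ E i).card ≤ 4) {L : Finset V}
    (h : ∀ v ∈ L, 12 ≤ (nbr E v ∩ L).card) (w : V → ℝ) (hw : ∀ v, 0 ≤ w v) :
    ∃ T : Finset V, (∀ i, E i ⊆ L → (T ∩ E i).Nonempty) ∧ ∑ v ∈ T, w v ≤ lam * ∑ v ∈ L, w v := by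
  classical
  have h1 : ∀ v ∈ L, ∀ i, v ∈ E i → E i ⊆ L := fun v hv i hi u hu' => by
    by_cases a : u = v
    · exact a ▸ hv
    · exact (nbr_full hu hd (h v hv)).2.1 i hi (mem_erase.2 ⟨a, hu'⟩)
  obtain ⟨T, t1, t2⟩ := Lin.Gap.linear_w (V := L) (ι := {i // E i ⊆ L})
    (fun i => (E i).subtype (· ∈ L))
    (fun i => by rw [card_subtype, filter_mem_eq_inter, inter_eq_left.2 i.2, hu])
    (fun v => by
      rw [← (nbr_full hu hd (h v v.2)).1]
      exact card_bij (fun i _ => i.1) (fun i hi => by simpa using hi)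
        (fun i _ j _ e => Subtype.ext e) fun i hi =>
          ⟨⟨i, h1 v v.2 i (by simpa using hi)⟩, by simpa using hi, rfl⟩)
    (fun i j hij => card_le_one.2 fun a ha b hb => by
      simp only [mem_inter, mem_subtype] at ha hb
      by_contra c
      have d : (b : V) ≠ a := fun e => c (Subtype.ext e.symm)
      exact disjoint_left.1 ((nbr_full hu hd (h a a.2)).2.2 i j (fun e => hij (Subtype.ext e))
        ha.1 ha.2) (mem_erase.2 ⟨d, hb.1⟩) (mem_erase.2 ⟨d, hb.2⟩))
    (fun v : L => w v) fun v => hw v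
  refine ⟨T.map (Function.Embedding.subtype _), fun i hi => ?_, ?_⟩
  · obtain ⟨v, hv⟩ := t1 ⟨i, hi⟩
    simp only [mem_inter, mem_subtype] at hv
    exact ⟨v, mem_inter.2 ⟨mem_map_of_mem _ hv.1, hv.2⟩⟩
  · rw [sum_map, ← sum_coe_sort L]
    exact t2

theorem general {c : ℝ} (hc : lam ≤ c) (C : Hg → Prop) (hM : ∀ R : Hg, Cls R → C R →
      ∀ χ : ℕ → Fin 12, (∀ e ∈ R, ∀ u ∈ e, ∀ v ∈ e, χ u = χ v → u = v) → Good R fun _ => c)
    [Nonempty ι] (E : ι → Finset V) (hu : ∀ i, (E i).card = 4)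
    (hd : ∀ v, (univ.filter fun i => v ∈ E i).card ≤ 4)
    (hC : ∀ n : V → ℕ, Function.Injective n → ∀ s : Finset ι, C (s.image fun i => (E i).image n)) :
    1 / c ≤ FDT E := by
  classical
  have c0 : 0 < c := lt_of_lt_of_le (by norm_num [lam]) hc
  refine Lin.p_Dual V ι E c c0 ?_
  intro w hw
  obtain ⟨L, -, l1, χ, hχ⟩ := core E univ
  obtain ⟨T, t1, t2⟩ := linear_part hu hd l1 w hw
  have h1 : ∀ i, ¬ E i ⊆ L → ∀ v ∈ E i, v ∈ univ \ L := fun i hi v hv =>
    mem_sdiff.2 ⟨mem_univ _, fun a => hi fun u hu' => by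
      by_cases b : u = v
      · exact b ▸ a
      · exact (nbr_full hu hd (l1 v a)).2.1 i hv (mem_erase.2 ⟨b, hu'⟩)⟩
  obtain ⟨n, hn⟩ := exists_injective_nat V
  obtain ⟨U, u1, u2⟩ := hM ((univ.filter fun i => ¬ E i ⊆ L).image fun i => (E i).image n)
    ⟨fun e he => by
      obtain ⟨i, -, rfl⟩ := mem_image.1 he
      rw [card_image_of_injective _ hn, hu], fun v => by
      rw [filter_image]
      refine card_image_le.trans ?_
      by_cases a : ∃ x, n x = v
      · obtain ⟨x, rfl⟩ := a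
        exact (card_le_card fun i hi => by
          simpa [hn.eq_iff] using (mem_filter.1 hi).2).trans (hd x)
      · rw [filter_eq_empty_iff.2 fun i _ b => by
          obtain ⟨x, -, c⟩ := mem_image.1 b
          exact a ⟨x, c⟩]
        simp⟩ (hC n hn _) (Function.extend n χ fun _ => 0) (fun e he u hu' v hv a => by
      obtain ⟨i, hi, rfl⟩ := mem_image.1 he
      obtain ⟨x, hx, rfl⟩ := mem_image.1 hu'
      obtain ⟨y, hy, rfl⟩ := mem_image.1 hv
      rw [hn.extend_apply, hn.extend_apply] at a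
      rw [hχ i x hx y hy (h1 i (mem_filter.1 hi).2 x hx) (h1 i (mem_filter.1 hi).2 y hy) a])
    (Function.extend n w fun _ => 0) fun v => by
      by_cases a : ∃ x, n x = v
      · obtain ⟨x, rfl⟩ := a
        rw [hn.extend_apply]
        exact hw x
      · rw [Function.extend_apply' _ _ _ a]
  have w0 : ∀ v, 0 ≤ Function.extend n w (fun _ => (0 : ℝ)) v := fun v => by
    by_cases a : ∃ x, n x = v
    · obtain ⟨x, rfl⟩ := a
      rw [hn.extend_apply]
      exact hw x
    · rw [Function.extend_apply' _ _ _ a]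
  have h2 : ∀ X : Finset V, ∑ v ∈ X.image n, Function.extend n w (fun _ => (0 : ℝ)) v =
      ∑ v ∈ X, w v := fun X => by
    rw [sum_image fun x _ y _ e => hn e]
    exact sum_congr rfl fun x _ => hn.extend_apply _ _ _
  refine ⟨T ∪ univ.filter fun v => n v ∈ U, fun i => ?_, ?_⟩
  · by_cases a : E i ⊆ L
    · exact (t1 i a).mono (inter_subset_inter_right subset_union_left)
    · obtain ⟨y, hy⟩ := u1 _ (mem_image.2 ⟨i, mem_filter.2 ⟨mem_univ _, a⟩, rfl⟩)
      obtain ⟨x, hx, rfl⟩ := mem_image.1 (mem_inter.1 hy).2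
      exact ⟨x, mem_inter.2 ⟨mem_union_right _ (by simpa using (mem_inter.1 hy).1), hx⟩⟩
  · have h3 := sum_mono w0 (T := (univ.filter fun v => n v ∈ U).image n) (U := U) fun y hy => by
      obtain ⟨x, hx, rfl⟩ := mem_image.1 hy
      exact (mem_filter.1 hx).2
    have h4 := sum_mono w0 (U := (univ \ L).image n)
      (T := vs ((univ.filter fun i => ¬ E i ⊆ L).image fun i => (E i).image n)) fun y hy => by
      obtain ⟨e, he, hy⟩ := mem_vs.1 hy
      obtain ⟨i, hi, rfl⟩ := mem_image.1 he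
      obtain ⟨x, hx, rfl⟩ := mem_image.1 hy
      exact mem_image_of_mem _ (h1 i (mem_filter.1 hi).2 x hx)
    rw [h2] at h3 h4
    rw [← sum_mul] at u2
    have h5 := sum_sdiff (f := w) (subset_univ L)
    have h6 := sum_union_inter (s₁ := T) (s₂ := univ.filter fun v => n v ∈ U) (f := w)
    have h7 : 0 ≤ ∑ v ∈ T ∩ univ.filter fun v => n v ∈ U, w v := sum_nonneg fun v _ => hw v
    have h8 := mul_le_mul_of_nonneg_right hc (sum_nonneg fun v (_ : v ∈ L) => hw v)
    have h9 := mul_le_mul_of_nonneg_right h4 c0.le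
    rw [← h5]
    linarith

omit [Fintype V] [Fintype ι] in
theorem has_of_fano {E : ι → Finset V} {n : V → ℕ} (hn : Function.Injective n) {s : Finset ι}
    (h : Fano (s.image fun i => (E i).image n)) : HasFanoComplement E := by
  obtain ⟨y, y1, y2⟩ := h
  have p1 : Function.Injective (![0, 1, 2, 6, 3, 4, 5] : Fin 7 → Fin 7) := by decide
  have p2 : ∀ j : Fin 7, (univ \ {j, j + 1, j + 3}).image ![0, 1, 2, 6, 3, 4, 5] ∈ fanoE := by
    decide
  have p3 : ∀ k : Fin 7, ∃ A ∈ fanoE, k ∈ A := by decide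
  have a : ∀ k, ∃ v, n v = y k := fun k => by
    obtain ⟨A, a1, a2⟩ := p3 k
    obtain ⟨i, -, b⟩ := mem_image.1 (y2 A a1)
    obtain ⟨v, -, c⟩ := mem_image.1 (b ▸ mem_image_of_mem y a2)
    exact ⟨v, c⟩
  choose x hx using a
  refine ⟨x ∘ ![0, 1, 2, 6, 3, 4, 5], Function.Injective.comp
    (fun k l e => y1 (by rw [← hx, ← hx, e])) p1, fun j => ?_⟩
  obtain ⟨i, -, b⟩ := mem_image.1 (y2 _ (p2 j))
  refine ⟨i, image_injective hn (b.trans ?_)⟩
  rw [← image_image (g := x), image_image (g := n), show n ∘ x = y from funext hx]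

omit [Fintype ι] in
theorem upper {E : ι → Finset V} (h : HasFanoComplement E) : FDT E ≤ 7 / 3 := by
  obtain ⟨x, x1, x2⟩ := h
  have p : ∀ S : Finset (Fin 7), (∀ j : Fin 7, ∃ k ∈ S, k ∈ univ \ {j, j + 1, j + 3}) →
      3 ≤ S.card := by decide +kernel
  have key : ∀ F : Multiset (Finset V), (∀ T ∈ F, IsTransversal E T) →
      3 * Multiset.card F ≤ ∑ k, F.countP fun T => x k ∈ T := fun F hF => by
    induction F using Multiset.induction_on with
    | empty => simp
    | cons T F ih =>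
      have a := ih fun S hS => hF S (Multiset.mem_cons_of_mem hS)
      have b := p (univ.filter fun k => x k ∈ T) fun j => by
        obtain ⟨i, e⟩ := x2 j
        obtain ⟨v, hv⟩ := hF T (Multiset.mem_cons_self _ _) i
        rw [e, mem_inter] at hv
        obtain ⟨k, k1, rfl⟩ := mem_image.1 hv.2
        exact ⟨k, mem_filter.2 ⟨mem_univ _, hv.1⟩, k1⟩
      rw [card_filter] at b
      simp only [Multiset.card_cons, Multiset.countP_cons, sum_add_distrib]
      omega
  refine Real.sSup_le ?_ (by norm_num)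
  rintro _ ⟨F, -, hF, rfl⟩
  have a := (key F hF).trans (sum_le_card_nsmul univ _ (maxMult F) fun k _ => countP_le_maxMult F _)
  rw [card_univ, Fintype.card_fin, smul_eq_mul] at a
  have b : (3 * Multiset.card F : ℝ) ≤ 7 * maxMult F := by exact_mod_cast a
  exact div_le_of_le_mul₀ (by positivity) (by norm_num) (by linarith)

theorem dichotomy [Nonempty ι] (E : ι → Finset V) (hu : ∀ i, (E i).card = 4)
    (hd : ∀ v, (univ.filter fun i => v ∈ E i).card ≤ 4) :
    (HasFanoComplement E ∧ FDT E = 7 / 3) ∨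
      (¬ HasFanoComplement E ∧ 7 / 3 + 1 / 10000 ≤ FDT E) := by
  by_cases h : HasFanoComplement E
  · refine Or.inl ⟨h, le_antisymm (upper h) ?_⟩
    have a := general (c := 3 / 7) (by norm_num [lam]) (fun _ => True)
      (fun R a _ => s_main R a) E hu hd fun _ _ _ => trivial
    norm_num at a
    exact a
  · refine Or.inr ⟨h, le_trans (by norm_num [lam]) (general le_rfl (fun R => ¬Fano R)
      (fun R a b χ c => (main_of stage_all χ R a b c).mono fun v _ => ?_) E hu hd
      fun n hn s a => h (has_of_fano hn a))⟩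
    unfold tq lam
    split_ifs <;> norm_num

end Pool.Agent.P.MP_b2082d_co.Gen.Gap
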